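import Pool.Agent.H82.EUC.Stmts

/-!
# Board `euc`, row FAM (helper80): the family of stable matchings
-/

set_option autoImplicit false

namespace Pool.EUC

namespace FAM80

variable {V : Type} (G : SimpleGraph V)

/-- the set with the vertices satisfying `p` and the edges satisfying `r` -/
def mk (p : V → Prop) (r : Sym2 V → Prop) : Set (V ⊕ G.edgeSet) :=
  {x | (∃ v, x = Sum.inl v ∧ p v) ∨ ∃ e : G.edgeSet, x = Sum.inr e ∧ r e.1}

theorem mem_inl (p : V → Prop) (r : Sym2 V → Prop) (v : V) : Sum.inl v ∈ mk G p r ↔ p v := by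
  constructor
  · rintro (⟨w, h, hp⟩ | ⟨e, h, _⟩)
    · rw [Sum.inl.inj h]
      exact hp
    · exact absurd h (by simp)
  · intro h
    exact Or.inl ⟨v, rfl, h⟩

theorem mem_inr (p : V → Prop) (r : Sym2 V → Prop) (e : G.edgeSet) :
    Sum.inr e ∈ mk G p r ↔ r e.1 := by
  constructor
  · rintro (⟨w, h, hp⟩ | ⟨e', h, hr⟩)
    · exact absurd h (by simp)
    · rw [Sum.inr.inj h]
      exact hr
  · intro h
    exact Or.inr ⟨e, rfl, h⟩

theorem clo (p : V → Prop) (r : Sym2 V → Prop) (h : ∀ v e, v ∈ e → r e → p v) :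
    Clo G (mk G p r) := by
  intro v e hv he
  rw [mem_inl]
  rw [mem_inr] at he
  exact h v e.1 hv he

theorem sub (p p' : V → Prop) (r r' : Sym2 V → Prop) (hp : ∀ v, p v → p' v)
    (hr : ∀ e, r e → r' e) : mk G p r ⊆ mk G p' r' := by
  rintro (v | e) h
  · rw [mem_inl] at h ⊢
    exact hp v h
  · rw [mem_inr] at h ⊢
    exact hr e.1 h

theorem ext (p : V → Prop) (r : Sym2 V → Prop) (S : Set (V ⊕ G.edgeSet))
    (hp : ∀ v, Sum.inl v ∈ S ↔ p v) (hr : ∀ e : G.edgeSet, Sum.inr e ∈ S ↔ r e.1) :
    S = mk G p r := by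
  ext x
  rcases x with v | e
  · rw [mem_inl, hp]
  · rw [mem_inr, hr]

end FAM80

open FAM80

theorem fam_thm (h1 : MTI_S) : FAM_S := by
  intro A _ dM dW iM iW V G f hf c hc hadj
  have hmti := h1 A dM dW iM iW V G f hf
  let Z : Type := {S : Set (V ⊕ G.edgeSet) // Clo G S}
  let So : Z := ⟨mk G (fun _ => False) (fun _ => False), clo G _ _ (fun _ _ _ h => h)⟩
  let Sa : Fin 5 → Z := fun u => ⟨mk G (fun x => x = c u) (fun _ => False),
    clo G _ _ (fun _ _ _ h => h.elim)⟩
  let Sd : Fin 5 → Fin 5 → Z := fun u v => ⟨mk G (fun x => x = c u ∨ x = c v) (fun _ => False),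
    clo G _ _ (fun _ _ _ h => h.elim)⟩
  let Sb : Fin 5 → Fin 5 → Z := fun u v =>
    ⟨mk G (fun x => x = c u ∨ x = c v) (fun e => e = s(c u, c v)),
    clo G _ _ (fun x e hx he => by
      rw [he, Sym2.mem_iff] at hx
      exact hx)⟩
  let Sc : Fin 5 → Fin 5 → Fin 5 → Z := fun u v l =>
    ⟨mk G (fun x => (x = c u ∨ x = c v) ∨ x = c l) (fun e => e = s(c u, c v)),
    clo G _ _ (fun x e hx he => by
      rw [he, Sym2.mem_iff] at hx
      exact Or.inl hx)⟩
  let F : Fam A := Fam.mk (f So).1 (fun u => (f (Sa u)).1) (fun u v => (f (Sd u v)).1)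
    (fun u v => (f (Sb u v)).1) (fun u v l => (f (Sc u v l)).1)
  have la : ∀ u x, Sum.inl x ∈ (Sa u).1 ↔ x = c u := fun u x =>
    mem_inl G (fun x => x = c u) (fun _ => False) x
  have ra : ∀ u (e : G.edgeSet), Sum.inr e ∈ (Sa u).1 ↔ False := fun u e =>
    mem_inr G (fun x => x = c u) (fun _ => False) e
  have ld : ∀ u v x, Sum.inl x ∈ (Sd u v).1 ↔ x = c u ∨ x = c v := fun u v x =>
    mem_inl G (fun x => x = c u ∨ x = c v) (fun _ => False) x
  have rd : ∀ u v (e : G.edgeSet), Sum.inr e ∈ (Sd u v).1 ↔ False := fun u v e =>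
    mem_inr G (fun x => x = c u ∨ x = c v) (fun _ => False) e
  have lb : ∀ u v x, Sum.inl x ∈ (Sb u v).1 ↔ x = c u ∨ x = c v := fun u v x =>
    mem_inl G (fun x => x = c u ∨ x = c v) (fun e => e = s(c u, c v)) x
  have rb : ∀ u v (e : G.edgeSet), Sum.inr e ∈ (Sb u v).1 ↔ e.1 = s(c u, c v) := fun u v e =>
    mem_inr G (fun x => x = c u ∨ x = c v) (fun e => e = s(c u, c v)) e
  have lc : ∀ u v l x, Sum.inl x ∈ (Sc u v l).1 ↔ (x = c u ∨ x = c v) ∨ x = c l :=
    fun u v l x => mem_inl G (fun x => (x = c u ∨ x = c v) ∨ x = c l) (fun e => e = s(c u, c v)) x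
  have rc : ∀ u v l (e : G.edgeSet), Sum.inr e ∈ (Sc u v l).1 ↔ e.1 = s(c u, c v) :=
    fun u v l e => mem_inr G (fun x => (x = c u ∨ x = c v) ∨ x = c l) (fun e => e = s(c u, c v)) e
  have hinj : ∀ S T : Z, (f S).1 = (f T).1 → S.1 = T.1 := by
    intro S T h
    have h2 : f S = f T := Subtype.ext h
    rw [f.injective h2]
  have hne : ∀ u v : Fin 5, u ≠ v → c u ≠ c v := fun u v h h' => h (hc h')
  have hse : ∀ u v k l : Fin 5, u ≠ k → u ≠ l → s(c u, c v) ≠ s(c k, c l) := by
    intro u v k l h2 h3 h
    have h4 : c u ∈ s(c k, c l) := by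
      rw [← h]
      exact Sym2.mem_mk_left _ _
    rw [Sym2.mem_iff] at h4
    rcases h4 with h4 | h4
    · exact h2 (hc h4)
    · exact h3 (hc h4)
  refine ⟨F, ?_⟩
  constructor
  · exact (f So).2
  · exact fun u => (f (Sa u)).2
  · exact fun u v _ => (f (Sd u v)).2
  · exact fun u v _ => (f (Sb u v)).2
  · exact fun u v l _ _ _ => (f (Sc u v l)).2
  · intro u v
    show (f (Sd u v)).1 = (f (Sd v u)).1
    have h : Sd u v = Sd v u := by
      apply Subtype.ext
      refine ext G (fun x => x = c v ∨ x = c u) (fun _ => False) _ ?_ ?_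
      · intro x
        rw [ld]
        exact or_comm
      · intro e
        rw [rd]
    rw [h]
  · intro u v
    show (f (Sb u v)).1 = (f (Sb v u)).1
    have h : Sb u v = Sb v u := by
      apply Subtype.ext
      refine ext G (fun x => x = c v ∨ x = c u) (fun e => e = s(c v, c u)) _ ?_ ?_
      · intro x
        rw [lb]
        exact or_comm
      · intro e
        rw [rb, Sym2.eq_swap]
    rw [h]
  · intro u
    exact (hf So (Sa u)).1 (sub G (fun _ => False) (fun x => x = c u) (fun _ => False) (fun _ => False) (fun _ h => h.elim) (fun _ h => h))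
  · intro u h
    have h2 := hinj _ _ h
    have h3 : Sum.inl (c u) ∈ (Sa u).1 := (mem_inl G (fun x => x = c u) (fun _ => False) _).2 rfl
    rw [← h2] at h3
    exact (mem_inl G (fun _ => False) (fun _ => False) _).1 h3
  · intro u v _
    exact (hf (Sa u) (Sd u v)).1 (sub G (fun x => x = c u) (fun x => x = c u ∨ x = c v) (fun _ => False) (fun _ => False) (fun _ h => Or.inl h) (fun _ h => h))
  · intro u v _
    exact (hf (Sd u v) (Sb u v)).1 (sub G (fun x => x = c u ∨ x = c v) (fun x => x = c u ∨ x = c v) (fun _ => False) (fun e => e = s(c u, c v)) (fun _ h => h) (fun _ h => h.elim))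
  · intro u v huv h
    have h2 := hinj _ _ h
    have h3 : Sum.inr ⟨s(c u, c v), hadj u v huv⟩ ∈ (Sb u v).1 :=
      (mem_inr G (fun x => x = c u ∨ x = c v) (fun e => e = s(c u, c v)) _).2 rfl
    rw [← h2] at h3
    exact (mem_inr G (fun x => x = c u ∨ x = c v) (fun _ => False) _).1 h3
  · intro u v l _ _ _
    exact (hf (Sb u v) (Sc u v l)).1 (sub G (fun x => x = c u ∨ x = c v) (fun x => (x = c u ∨ x = c v) ∨ x = c l) (fun e => e = s(c u, c v)) (fun e => e = s(c u, c v)) (fun _ h => Or.inl h) (fun _ h => h))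
  · intro u v huv ν hν ha hb
    obtain ⟨S, hS⟩ := f.surjective ⟨ν, hν⟩
    have hSv : (f S).1 = ν := congrArg Subtype.val hS
    have h2 : (Sa u).1 ⊆ S.1 := (hf (Sa u) S).2 (by rw [hSv]; exact ha)
    have h3 : S.1 ⊆ (Sb u v).1 := (hf S (Sb u v)).2 (by rw [hSv]; exact hb)
    have hu : Sum.inl (c u) ∈ S.1 := h2 ((mem_inl G (fun x => x = c u) (fun _ => False) _).2 rfl)
    have hl : ∀ x, Sum.inl x ∈ S.1 → x = c u ∨ x = c v := fun x hx =>
      (mem_inl G (fun x => x = c u ∨ x = c v) (fun e => e = s(c u, c v)) _).1 (h3 hx)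
    have hr : ∀ e : G.edgeSet, Sum.inr e ∈ S.1 → e.1 = s(c u, c v) := fun e he =>
      (mem_inr G (fun x => x = c u ∨ x = c v) (fun e => e = s(c u, c v)) _).1 (h3 he)
    by_cases hv : Sum.inl (c v) ∈ S.1
    · by_cases he : Sum.inr ⟨s(c u, c v), hadj u v huv⟩ ∈ S.1
      · refine Or.inr (Or.inr ?_)
        have h4 : S = Sb u v := by
          apply Subtype.ext
          refine ext G (fun x => x = c u ∨ x = c v) (fun e => e = s(c u, c v)) _ ?_ ?_
          · intro x
            refine ⟨hl x, ?_⟩
            rintro (rfl | rfl)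
            · exact hu
            · exact hv
          · intro e
            refine ⟨hr e, ?_⟩
            intro h
            have h5 : e = ⟨s(c u, c v), hadj u v huv⟩ := Subtype.ext h
            rw [h5]
            exact he
        rw [← hSv, h4]
      · refine Or.inr (Or.inl ?_)
        have h4 : S = Sd u v := by
          apply Subtype.ext
          refine ext G (fun x => x = c u ∨ x = c v) (fun _ => False) _ ?_ ?_
          · intro x
            refine ⟨hl x, ?_⟩
            rintro (rfl | rfl)
            · exact hu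
            · exact hv
          · intro e
            refine ⟨fun h => ?_, fun h => h.elim⟩
            have h5 : e = ⟨s(c u, c v), hadj u v huv⟩ := Subtype.ext (hr e h)
            rw [h5] at h
            exact he h
        rw [← hSv, h4]
    · refine Or.inl ?_
      have h4 : S = Sa u := by
        apply Subtype.ext
        refine ext G (fun x => x = c u) (fun _ => False) _ ?_ ?_
        · intro x
          constructor
          · intro hx
            rcases hl x hx with h | h
            · exact h
            · rw [h] at hx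
              exact absurd hx hv
          · intro h
            rw [h]
            exact hu
        · intro e
          refine ⟨fun h => ?_, fun h => h.elim⟩
          apply hv
          apply S.2 (c v) e _ h
          rw [hr e h]
          exact Sym2.mem_mk_right _ _
      rw [← hSv, h4]
  · intro u v huv
    apply hmti (Sa u) (Sa v) So
    symm
    refine ext G (fun _ => False) (fun _ => False) _ ?_ ?_
    · intro x
      rw [Set.mem_inter_iff, la, la]
      constructor
      · rintro ⟨rfl, h⟩
        exact hne u v huv h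
      · exact fun h => h.elim
    · intro e
      rw [Set.mem_inter_iff, ra, ra]
      exact ⟨fun h => h.1, fun h => h.elim⟩
  · intro u v k l huv huk hul hvk hvl hkl
    apply hmti (Sc u v l) (Sb k l) (Sa l)
    symm
    refine ext G (fun x => x = c l) (fun _ => False) _ ?_ ?_
    · intro x
      rw [Set.mem_inter_iff, lc, lb]
      constructor
      · rintro ⟨(h | h) | h, h' | h'⟩
        · exact absurd (h.symm.trans h') (hne u k huk)
        · exact h'
        · exact absurd (h.symm.trans h') (hne v k hvk)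
        · exact h'
        · exact h
        · exact h
      · intro h
        exact ⟨Or.inr h, Or.inr h⟩
    · intro e
      rw [Set.mem_inter_iff, rc, rb]
      refine ⟨fun h => ?_, fun h => h.elim⟩
      exact hse u v k l huk hul (h.1.symm.trans h.2)
  · intro u v k l huv huk hul hvk hvl hkl
    apply hmti (Sc u v l) (Sc k l u) (Sd u l)
    symm
    refine ext G (fun x => x = c u ∨ x = c l) (fun _ => False) _ ?_ ?_
    · intro x
      rw [Set.mem_inter_iff, lc, lc]
      constructor
      · rintro ⟨(h | h) | h, (h' | h') | h'⟩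
        · exact Or.inl h
        · exact Or.inl h
        · exact Or.inl h
        · exact absurd (h.symm.trans h') (hne v k hvk)
        · exact Or.inr h'
        · exact Or.inl h'
        · exact Or.inr h
        · exact Or.inr h
        · exact Or.inr h
      · rintro (h | h)
        · exact ⟨Or.inl (Or.inl h), Or.inr h⟩
        · exact ⟨Or.inr h, Or.inl (Or.inr h)⟩
    · intro e
      rw [Set.mem_inter_iff, rc, rc]
      refine ⟨fun h => ?_, fun h => h.elim⟩
      exact hse u v k l huk hul (h.1.symm.trans h.2)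

end Pool.EUC
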