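import Pool.Agent.H82.EUC.Stmts4

/-!
# Board `euc`, row PDW (helper80): women moved by incomparable elements are different
-/

set_option autoImplicit false

namespace Pool.EUC

namespace PDW80

theorem inf_eq {P : Type} [PartialOrder P] (x y : P) (h : ¬ y ≤ x) :
    (LowerSet.Iic x ⊔ LowerSet.Iio y) ⊓ LowerSet.Iic y = LowerSet.Iio y := by
  ext z
  simp only [LowerSet.coe_inf, LowerSet.coe_sup, LowerSet.coe_Iic, LowerSet.coe_Iio,
    Set.mem_inter_iff, Set.mem_union, Set.mem_Iic, Set.mem_Iio]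
  constructor
  · rintro ⟨h1 | h1, h2⟩
    · refine lt_of_le_of_ne h2 ?_
      rintro rfl
      exact h h1
    · exact h1
  · intro h1
    exact ⟨Or.inr h1, h1.le⟩

theorem half {A P : Type} [PartialOrder P] (dM dW : A → A → ℝ) (iW : Inj dW)
    (g : LowerSet P → Equiv.Perm A) (hg : IsLat P dM dW g) (x y : P) (h : ¬ y ≤ x) (w : A)
    (hx : Wo g x w) (hy : Wo g y w) :
    dW w ((g (LowerSet.Iio y)).symm w) < dW w ((g (LowerSet.Iio x)).symm w) := by
  have h1 := (hg.meet (LowerSet.Iic x ⊔ LowerSet.Iio y) (LowerSet.Iic y)).1 w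
  rw [inf_eq x y h] at h1
  have h2 : dW w ((g (LowerSet.Iio y)).symm w) ≠ dW w ((g (LowerSet.Iic y)).symm w) :=
    fun h3 => hy (iW w h3)
  have h3 : dW w ((g (LowerSet.Iio y)).symm w) =
      dW w ((g (LowerSet.Iic x ⊔ LowerSet.Iio y)).symm w) := by
    rcases max_choice (dW w ((g (LowerSet.Iic x ⊔ LowerSet.Iio y)).symm w))
      (dW w ((g (LowerSet.Iic y)).symm w)) with h4 | h4
    · rw [h1, h4]
    · rw [h4] at h1
      exact absurd h1 h2
  have h4 := hg.mono (LowerSet.Iic x) (LowerSet.Iic x ⊔ LowerSet.Iio y) le_sup_left w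
  have h5 := hg.mono (LowerSet.Iio x) (LowerSet.Iic x) (fun z (hz : z < x) => (hz.le : z ≤ x)) w
  have h6 : dW w ((g (LowerSet.Iic x)).symm w) ≠ dW w ((g (LowerSet.Iio x)).symm w) :=
    fun h7 => hx (iW w h7).symm
  rw [h3]
  exact lt_of_le_of_lt h4 (lt_of_le_of_ne h5 h6)

end PDW80

theorem pdw_thm : PDW_S := by
  intro A P _ dM dW _ iW g hg x y hxy hyx w hx hy
  have h1 := PDW80.half dM dW iW g hg x y hyx w hx hy
  have h2 := PDW80.half dM dW iW g hg y x hxy w hy hx
  exact lt_asymm h1 h2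

end Pool.EUC
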